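import Mathlib
import Pool.Agent.Helper42.RP.Main

/-!
When the known lower bound can be improved.
-/

namespace Pool.Agent.Results.MP_7383c0_nt.AboveHalf

open MeasureTheory Filter Pool.Agent.Helper42.RP

/-- Almost surely the upper limit of `(1/n) log M_Q(n)` exceeds `(1/2) log 2` if and only if
`∑_n 2^(-κ_t(n)) = ∞` for some `t` strictly between `0` and `1`; otherwise it is almost surely
equal to `(1/2) log 2`. -/
theorem result {Ω : Type*} [MeasurableSpace Ω] (P : Measure Ω) (Q : Ω → Set ℕ) (h : Fair P Q) :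
    ((∀ᵐ ω ∂P, 1 / 2 * Real.log 2 < limsup (fun n : ℕ => Real.log (MQ (Q ω) n) / n) atTop) ↔
      ∃ t : ℝ, 0 < t ∧ t < 1 ∧ ¬ Summable fun n : ℕ => (1 / 2 : ℝ) ^ kappa t n) ∧
    ((∀ᵐ ω ∂P, limsup (fun n : ℕ => Real.log (MQ (Q ω) n) / n) atTop = 1 / 2 * Real.log 2) ↔
      ∀ t : ℝ, 0 < t → t < 1 → Summable fun n : ℕ => (1 / 2 : ℝ) ^ kappa t n) := by
  have h1 : (∃ t : ℝ, 0 < t ∧ t < 1 ∧ ¬ Summable fun n : ℕ => (1 / 2 : ℝ) ^ kappa t n) ↔
      ∃ t : ℝ, 0 < t ∧ t < 1 ∧ ¬ Summable fun n : ℕ => (1 / 2 : ℝ) ^ kk t n := by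
    refine exists_congr fun t => and_congr_right fun ht => ?_
    simp only [kappa_eq ht]
  have h2 := crit_half
  rw [← h1] at h2
  refine ⟨by rw [ae_iff h (fun x => 1 / 2 * Real.log 2 < x), h2], ?_⟩
  rw [ae_iff h (fun x => x = 1 / 2 * Real.log 2)]
  constructor
  · intro h3 t ht ht1
    by_contra h4
    exact absurd h3 (h2.2 ⟨t, ht, ht1, h4⟩).ne'
  · intro h3
    by_contra h4
    obtain ⟨t, ht, ht1, h5⟩ := h2.1 (lt_of_le_of_ne L_ge_half (Ne.symm h4))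
    exact h5 (h3 t ht ht1)

end Pool.Agent.Results.MP_7383c0_nt.AboveHalf
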