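import Mathlib
import Pool.Agent.Helper42.RP.Main

/-!
An exact arithmetic criterion for Q1.
-/

namespace Pool.Agent.Results.MP_7383c0_nt.FewPrimes

open MeasureTheory Filter Pool.Agent.Helper42.RP

/-- Q1 holds if and only if `∑_n 2^(-κ_t(n)) = ∞` for every `t` strictly between `0` and `1`,
where `κ_t(n)` is the least number of primes of `2^n-1` whose full powers have a product at
least `(2^n-1)^t`. -/
theorem result {Ω : Type*} [MeasurableSpace Ω] (P : Measure Ω) (Q : Ω → Set ℕ) (h : Fair P Q) :
    (∀ᵐ ω ∂P, limsup (fun n : ℕ => Real.log (MQ (Q ω) n) / n) atTop = Real.log 2) ↔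
      ∀ t : ℝ, 0 < t → t < 1 → ¬ Summable fun n : ℕ => (1 / 2 : ℝ) ^ kappa t n := by
  rw [ae_iff h (fun x => x = Real.log 2), crit_full]
  refine forall_congr' fun t => forall_congr' fun ht => forall_congr' fun _ => ?_
  simp only [kappa_eq ht]

end Pool.Agent.Results.MP_7383c0_nt.FewPrimes
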