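import Mathlib
import Pool.Agent.Helper11.SO.Fin

/-!
Fluctuations of `log M_Q(n)` of order `√n log n` around `(n/2) log 2`.
-/

namespace Pool.Agent.Results.MP_7383c0_nt.Fluctuations

open MeasureTheory Filter Pool.Agent.Helper42.RP

/-- Let `Q` be a random set of primes (every prime is in `Q` with probability `1/2`,
independently). Almost surely, for every real `c < √(log 2)`, infinitely many `n` satisfy
`log M_Q(n) ≥ (n/2) log 2 + c √n log n`, and infinitely many `n` satisfy
`log M_Q(n) ≤ (n/2) log 2 - c √n log n`. -/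
theorem result {Ω : Type*} [MeasurableSpace Ω] (P : Measure Ω) (Q : Ω → Set ℕ) (h : Fair P Q) :
    ∀ᵐ ω ∂P, ∀ c : ℝ, c < √(Real.log 2) →
      (∃ᶠ n : ℕ in atTop, (n : ℝ) / 2 * Real.log 2 + c * √(n : ℝ) * Real.log n ≤
        Real.log (MQ (Q ω) n)) ∧
      (∃ᶠ n : ℕ in atTop, Real.log (MQ (Q ω) n) ≤
        (n : ℝ) / 2 * Real.log 2 - c * √(n : ℝ) * Real.log n) :=
  Pool.Agent.Helper11.SO.second_order h

end Pool.Agent.Results.MP_7383c0_nt.Fluctuations
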