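import Mathlib
import Pool.Agent.Helper42.RP.Main

/-!
The almost sure values of the upper and the lower limit of `(1/n) log M_Q(n)`.
-/

namespace Pool.Agent.Results.MP_7383c0_nt.UnitaryDivisors

open MeasureTheory Filter Pool.Agent.Helper42.RP

/-- Let `Q` be a random set of primes (every prime is in `Q` with probability `1/2`,
independently) and let `L` be the supremum of the real numbers `c` for which the sum over `n` of
the proportion of the unitary divisors `D` of `2^n-1` with `log D ≥ c n` diverges. Almost surely
the upper limit of `(1/n) log M_Q(n)` is `L` and the lower limit is `log 2 - L`. -/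
theorem result {Ω : Type*} [MeasurableSpace Ω] (P : Measure Ω) (Q : Ω → Set ℕ) (h : Fair P Q) :
    ∀ᵐ ω ∂P,
      limsup (fun n : ℕ => Real.log (MQ (Q ω) n) / n) atTop =
        sSup {c : ℝ | ¬ Summable fun n : ℕ => dens c n} ∧
      liminf (fun n : ℕ => Real.log (MQ (Q ω) n) / n) atTop =
        Real.log 2 - sSup {c : ℝ | ¬ Summable fun n : ℕ => dens c n} := by
  have h1 := ae_MQ h
  rw [L_eq] at h1
  exact h1

end Pool.Agent.Results.MP_7383c0_nt.UnitaryDivisors
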